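import Pool.Agent.Helper11_PGL.StmtG
import Pool.Agent.Helper1_PGH.Below
import Pool.Agent.Helper1_PGH.Ded

/-!
# Module DRAT of the squad PGL (helper13)
-/

open PGH Polynomial
open scoped IntermediateField TensorProduct

universe u v w

namespace PGL
namespace H13

section Rat

variable {k E : Type*} [Field k] [Field E] [Algebra k E]

theorem aeval_ge_zero {P : Place k E} {x : E} (hx : P.Ge 0 x) (f : k[X]) :
    P.Ge 0 (aeval x f) := by
  rw [Polynomial.aeval_eq_sum_range]
  refine Place.Ge.sum fun i _ => Place.Ge.smul ?_ _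
  have h1 := hx.pow i
  rwa [mul_zero] at h1

/-- the order of a polynomial in `x` is a multiple of the order of `x` -/
theorem ord_aeval {P : Place k E} {x : E} (hx0 : x ≠ 0) (hx : P.Ge 1 x)
    (hinj : ∀ f : k[X], f ≠ 0 → aeval x f ≠ 0) (n : ℕ) :
    ∀ f : k[X], f.natDegree ≤ n → f ≠ 0 → ∃ a : ℤ, P.ord (aeval x f) = a * P.ord x := by
  have key : ∀ f : k[X], f.coeff 0 ≠ 0 → P.ord (aeval x f) = 0 := by
    intro f hf
    have hf0 : f ≠ 0 := by rintro rfl; exact hf (by simp)
    have h1 : P.Ge 1 (aeval x f - algebraMap k E (f.coeff 0)) := by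
      have h2 : aeval x f = aeval x (divX f) * x + algebraMap k E (f.coeff 0) := by
        conv_lhs => rw [← divX_mul_X_add f]
        rw [map_add, map_mul, aeval_X, aeval_C]
      rw [h2, add_sub_cancel_right]
      exact (aeval_ge_zero (hx.mono (by norm_num)) (divX f)).mul' hx (by norm_num)
    have h3 := P.ge_zero_of_res h1
    have h4 : ¬ P.Ge 1 (aeval x f) := by
      intro h5
      have h6 := h5.sub h1
      rw [sub_sub_cancel] at h6
      exact P.not_ge_one_const hf h6
    rw [P.ge_iff (hinj f hf0)] at h3 h4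
    omega
  induction n with
  | zero =>
    intro f hf hf0
    refine ⟨0, ?_⟩
    rw [zero_mul]
    apply key
    intro h
    apply hf0
    rw [Polynomial.eq_C_of_natDegree_le_zero hf, h, map_zero]
  | succ n ih =>
    intro f hf hf0
    by_cases h0 : f.coeff 0 = 0
    · have h1 : f = divX f * X := by
        conv_lhs => rw [← divX_mul_X_add f]
        rw [h0, map_zero, add_zero]
      have h2 : divX f ≠ 0 := by
        intro h3
        apply hf0
        rw [h1, h3, zero_mul]
      obtain ⟨a, ha⟩ := ih (divX f) (by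
        rw [natDegree_divX_eq_natDegree_tsub_one]
        omega) h2
      refine ⟨a + 1, ?_⟩
      conv_lhs => rw [h1, map_mul, aeval_X]
      rw [P.ord_mul (hinj _ h2) hx0, ha]
      ring
    · exact ⟨0, by rw [key f h0, zero_mul]⟩

/-- a generator of `E` with a zero at `P` has a simple zero there -/
theorem ord_gen {P : Place k E} {x : E} (htr : Transcendental k x) (hgen : k⟮x⟯ = ⊤)
    (hx : P.Ge 1 x) : P.ord x = 1 := by
  have hx0 : x ≠ 0 := by
    rintro rfl
    exact htr isAlgebraic_zero
  have hinj : ∀ f : k[X], f ≠ 0 → aeval x f ≠ 0 := fun f hf h0 => htr ⟨f, hf, h0⟩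
  obtain ⟨s, hs0, hs⟩ := P.exists_unif
  have h1 : s ∈ k⟮x⟯ := by rw [hgen]; trivial
  obtain ⟨r, q, hrq⟩ := IntermediateField.mem_adjoin_simple_iff k s |>.1 h1
  have hr0 : r ≠ 0 := by
    rintro rfl
    apply hs0
    rw [hrq, map_zero, zero_div]
  have hq0 : q ≠ 0 := by
    rintro rfl
    apply hs0
    rw [hrq, map_zero, div_zero]
  obtain ⟨a, ha⟩ := ord_aeval hx0 hx hinj _ r le_rfl hr0
  obtain ⟨b, hb⟩ := ord_aeval hx0 hx hinj _ q le_rfl hq0
  rw [hrq, P.ord_div (hinj r hr0) (hinj q hq0), ha, hb, ← sub_mul] at hs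
  have h2 : 1 ≤ P.ord x := (P.ge_iff hx0).1 hx
  have h3 : P.ord x ∣ 1 := ⟨a - b, by rw [← hs]; ring⟩
  exact le_antisymm (Int.le_of_dvd one_pos h3) h2

end Rat

/-- **DRAT** -/
theorem dRat : DRatStmt.{u} := by
  intro k E _ _ _ _ _ z hz hgen
  have hfin : FiniteDimensional k⟮z⟯ E := by
    refine ⟨⟨{1}, ?_⟩⟩
    rw [eq_top_iff]
    intro x _
    rw [Finset.coe_singleton, Submodule.mem_span_singleton]
    refine ⟨⟨x, by rw [hgen]; trivial⟩, ?_⟩
    change x * 1 = x
    rw [mul_one]
  have hFF : FF k E := FF.of_finite hz hfin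
  refine ⟨hFF, ?_⟩
  obtain ⟨δ, hδ⟩ := exists_deriv k E hz
  refine ⟨δ.restrictScalars ℤ, fun c => δ.map_algebraMap c, ?_, ?_⟩
  · intro w hw
    by_contra hcon
    push Not at hcon
    have hwt : Transcendental k w := PGH.transcendental_iff.2 hcon
    have := FF.isAlgebraic (E := E) hwt
    have h1 : (δ.restrictScalars ℤ : Derivation ℤ E E) z = 0 :=
      deriv_zero_of_isAlgebraic_adjoin (AlgHom.id k E) (δ.restrictScalars ℤ)
        (fun c => δ.map_algebraMap c) (x := w) hw (Algebra.IsAlgebraic.isAlgebraic z)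
    have h2 : (δ.restrictScalars ℤ : Derivation ℤ E E) z = 1 := hδ
    rw [h1] at h2
    exact zero_ne_one h2
  · intro P
    have hD : PresL k (δ.restrictScalars ℤ : Derivation ℤ E E) := fun c => ⟨0, by
      rw [map_zero]
      exact δ.map_algebraMap c⟩
    obtain ⟨c, -, -, hc⟩ := bounded_poles (δ.restrictScalars ℤ) hD
    by_cases hP : P.Ge 0 z
    · set x : E := z - algebraMap k E (P.res z) with hx
      have hx1 : P.Ge 1 x := P.res_spec hP
      have hxt : Transcendental k x := by
        rw [PGH.transcendental_iff] at hz ⊢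
        intro d hd
        apply hz (d + P.res z)
        rw [map_add, hd, hx]
        ring
      have hxg : k⟮x⟯ = ⊤ := by
        rw [eq_top_iff, ← hgen, IntermediateField.adjoin_simple_le_iff]
        have h1 : z = x + algebraMap k E (P.res z) := by rw [hx]; ring
        rw [h1]
        exact add_mem (IntermediateField.mem_adjoin_simple_self k x)
          (IntermediateField.algebraMap_mem _ _)
      have hord := ord_gen hxt hxg hx1
      have hx0 : x ≠ 0 := by
        rintro h0
        rw [h0] at hxt
        exact hxt isAlgebraic_zero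
      have hDx : (δ.restrictScalars ℤ : Derivation ℤ E E) x = 1 := by
        change δ x = 1
        rw [hx, map_sub, hδ, δ.map_algebraMap, sub_zero]
      have h3 := (tame_descent hD (hc P) hx0 hord one_ne_zero (B := 0) (by
        rw [hDx, ← map_one (algebraMap k E)]
        exact P.ge_const 1)).1
      have h4 : min (0 : ℤ) (0 - 1 + 1) = 0 := by norm_num
      rw [h4] at h3
      exact h3
    · have hz0 : z ≠ 0 := by
        rintro rfl
        exact hz isAlgebraic_zero
      rw [P.ge_iff hz0] at hP
      have hx1 : P.Ge 1 z⁻¹ := by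
        rw [P.ge_iff (inv_ne_zero hz0), P.ord_inv]
        omega
      have hxt : Transcendental k z⁻¹ := by
        rw [PGH.transcendental_iff] at hz ⊢
        intro d hd
        apply hz d⁻¹
        rw [map_inv₀, hd, inv_inv]
      have hxg : k⟮z⁻¹⟯ = ⊤ := by
        rw [eq_top_iff, ← hgen, IntermediateField.adjoin_simple_le_iff]
        have h1 := inv_mem (IntermediateField.mem_adjoin_simple_self k z⁻¹)
        rwa [inv_inv] at h1
      have hord := ord_gen hxt hxg hx1
      have hDx : (δ.restrictScalars ℤ : Derivation ℤ E E) z⁻¹ = -(z⁻¹ ^ 2) := by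
        change δ z⁻¹ = _
        rw [δ.leibniz_inv, hδ, smul_eq_mul, mul_one]
      have h3 := (tame_descent hD (hc P) (inv_ne_zero hz0) hord one_ne_zero (B := 2) (by
        rw [hDx]
        exact (hx1.pow 2).neg)).1
      have h4 : min (0 : ℤ) (2 - 1 + 1) = 0 := by norm_num
      rw [h4] at h3
      exact h3

end H13
end PGL
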