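import Pool.Agent.Helper11_PGL.StmtG
import Pool.Agent.Helper1_PGH.Below
import Pool.Agent.Helper1_PGH.Ded

/-!
# Module SQT of the squad PGL (helper13)
-/

open PGH Polynomial
open scoped IntermediateField TensorProduct

universe u v w

namespace PGL
namespace H13

section Norm

variable {k R : Type*} [Field k] [IsAlgClosed k] [CharZero k] [Field R] [Algebra k R] [FF k R]

/-- a nonzero derivation can be normalised at a place -/
theorem exists_normalised (Q : Place k R) (del : Derivation k R R) (hdel : del ≠ 0) :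
    ∃ (s : R) (d : Derivation k R R) (μ : R), s ≠ 0 ∧ Q.ord s = 1 ∧ (∀ r, d r = μ * del r) ∧
      d s = 1 ∧ ∀ r, Q.Ge 0 r → Q.Ge 0 (d r) := by
  obtain ⟨s, hs0, hs⟩ := Q.exists_unif
  have htr : Transcendental k s := by
    rw [PGH.transcendental_iff]
    intro c hc
    rw [← hc, Q.ord_const] at hs
    omega
  have hds : del s ≠ 0 := by
    intro h0
    apply hdel
    ext t
    have := FF.isAlgebraic (E := R) htr
    exact deriv_zero_of_isAlgebraic_adjoin (AlgHom.id k R) (del.restrictScalars ℤ)
      (fun c => del.map_algebraMap c) (x := s) h0 (Algebra.IsAlgebraic.isAlgebraic t)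
  let d : Derivation k R R := (del s)⁻¹ • del
  have hd : ∀ r, d r = (del s)⁻¹ * del r := fun r => rfl
  have hds1 : d s = 1 := by rw [hd, inv_mul_cancel₀ hds]
  refine ⟨s, d, (del s)⁻¹, hs0, hs, hd, hds1, ?_⟩
  let D : Derivation ℤ R R := d.restrictScalars ℤ
  have hD : PresL k D := fun c => ⟨0, by
    rw [map_zero]
    exact d.map_algebraMap c⟩
  obtain ⟨c, -, -, hc⟩ := bounded_poles D hD
  have h1 : Q.Ge 0 (D s) := by
    have h2 : D s = 1 := hds1
    rw [h2]
    rw [← map_one (algebraMap k R)]
    exact Q.ge_const (1 : k)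
  have h3 := (tame_descent hD (hc Q) hs0 hs one_ne_zero h1).1
  have h4 : min (0 : ℤ) (0 - 1 + 1) = 0 := by norm_num
  rw [h4] at h3
  exact h3

end Norm

section Taylor

variable {k R : Type*} [Field k] [Field R] [Algebra k R]

/-- the remainders of the Taylor expansion of `r` in powers of `s` at `Q` -/
noncomputable def rem (Q : Place k R) (s r : R) : ℕ → R
  | 0 => r
  | e + 1 => (rem Q s r e - algebraMap k R (Q.res (rem Q s r e))) / s

/-- the Taylor coefficients -/
noncomputable def tco (Q : Place k R) (s r : R) (e : ℕ) : k := Q.res (rem Q s r e)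

variable {Q : Place k R} {s r : R}

theorem ge_div_unif (hs0 : s ≠ 0) (hs : Q.ord s = 1) {x : R} (hx : Q.Ge 1 x) :
    Q.Ge 0 (x / s) := by
  by_cases hx0 : x = 0
  · rw [hx0, zero_div, ← map_zero (algebraMap k R)]
    exact Q.ge_const 0
  · rw [Q.ge_iff (div_ne_zero hx0 hs0), Q.ord_div hx0 hs0]
    rw [Q.ge_iff hx0] at hx
    omega

theorem rem_ge (hs0 : s ≠ 0) (hs : Q.ord s = 1) (hr : Q.Ge 0 r) (e : ℕ) :
    Q.Ge 0 (rem Q s r e) := by
  induction e with
  | zero => exact hr
  | succ e ih => exact ge_div_unif hs0 hs (Q.res_spec ih)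

theorem rem_succ (hs0 : s ≠ 0) (e : ℕ) :
    rem Q s r e = algebraMap k R (tco Q s r e) + s * rem Q s r (e + 1) := by
  change _ = algebraMap k R (Q.res (rem Q s r e)) +
    s * ((rem Q s r e - algebraMap k R (Q.res (rem Q s r e))) / s)
  rw [mul_div_cancel₀ _ hs0]
  ring

theorem taylor (hs0 : s ≠ 0) (M : ℕ) :
    r = ∑ e ∈ Finset.range M, algebraMap k R (tco Q s r e) * s ^ e + s ^ M * rem Q s r M := by
  induction M with
  | zero => simp [rem]
  | succ M ih =>
    rw [Finset.sum_range_succ]
    conv_lhs => rw [ih, rem_succ hs0 M]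
    ring

theorem eq_zero_of_ge_all {x : R} (h : ∀ M : ℕ, Q.Ge (M : ℤ) x) : x = 0 := by
  by_contra hx
  have h1 := h ((Q.ord x).toNat + 1)
  rw [Q.ge_iff hx] at h1
  push_cast at h1
  have := Int.self_le_toNat (Q.ord x)
  omega

/-- the derivative of a Taylor expansion -/
theorem deriv_taylor (hs0 : s ≠ 0) (d : Derivation k R R) (hds : d s = 1) (M : ℕ) :
    d r = ∑ e ∈ Finset.range M, algebraMap k R (tco Q s r e) * ((e : R) * s ^ (e - 1)) +
      ((M : R) * s ^ (M - 1) * rem Q s r M + s ^ M * d (rem Q s r M)) := by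
  have hpow : ∀ e : ℕ, d (s ^ e) = (e : R) * s ^ (e - 1) := by
    intro e
    rw [Derivation.leibniz_pow, hds, smul_eq_mul, mul_one, nsmul_eq_mul]
  conv_lhs => rw [taylor (Q := Q) (s := s) (r := r) hs0 M]
  rw [map_add, map_sum, d.leibniz, hpow, smul_eq_mul, smul_eq_mul]
  congr 1
  · refine Finset.sum_congr rfl fun e _ => ?_
    rw [d.leibniz, hpow, d.map_algebraMap, smul_zero, add_zero, smul_eq_mul]
  · ring

end Taylor

section TopInt

theorem top_one_le {x : WithTop ℤ} (h : 0 < x) : 1 ≤ x := by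
  induction x using WithTop.recTopCoe with
  | top => exact le_top
  | coe x =>
    norm_cast at h ⊢

theorem top_lt_one {x : WithTop ℤ} (h0 : 0 ≤ x) (h : ¬ 1 ≤ x) : x = 0 := by
  by_contra hne
  exact h (top_one_le (lt_of_le_of_ne h0 (Ne.symm hne)))

theorem top_add_cancel {x y z : WithTop ℤ} (hz : z ≠ ⊤) (h : x + z ≤ y + z) : x ≤ y := by
  obtain ⟨c, rfl⟩ := WithTop.ne_top_iff_exists.1 hz
  induction x using WithTop.recTopCoe with
  | top =>
    rw [top_add, top_le_iff, WithTop.add_eq_top] at h
    rcases h with h | h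
    · rw [h]
    · exact absurd h (WithTop.coe_ne_top)
  | coe x =>
    induction y using WithTop.recTopCoe with
    | top => exact le_top
    | coe y =>
      norm_cast at h ⊢
      omega

end TopInt

/-- **SQT** -/
theorem sqT : SqTStmt.{u} := by
  intro k V R κ _ _ _ _ _ _ _ _ _ _ _ _ w ι Q n f y lam p del B hw0 hB1 hB2 hB3 hB4 hf hp hres
    hlin hy hdel hE1 hE2
  obtain ⟨s, d, μ, hs0, hs, hdμ, hds, hdQ⟩ := exists_normalised Q del hdel
  obtain ⟨j1, hj1⟩ : ∃ j, p j ≠ 0 := Function.ne_iff.1 hp
  have hlam : lam ≠ 0 := by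
    rintro rfl
    have h1 := (hres j1).neg
    rw [zero_mul, zero_sub, neg_neg] at h1
    exact Q.not_ge_one_const hj1 h1
  have hgQ : ∀ j, Q.Ge 0 (lam * f j) := fun j => Q.ge_zero_of_res (hres j)
  have hG0 : ∀ j, tco Q s (lam * f j) 0 = p j := fun j => Q.res_eq (hgQ j) (hres j)
  have hwk : ∀ c : k, 0 ≤ w (algebraMap k V c) := by
    intro c
    by_cases hc : c = 0
    · rw [hc, map_zero, w.map_zero]
      exact le_top
    · rw [hw0 c hc]
  -- units of `B`
  have hunit : ∀ x : V, w x = 0 → algebraMap V κ x ∉ B.nonunits := by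
    intro x hx hcon
    have hx0 : x ≠ 0 := by
      rintro rfl
      rw [w.map_zero] at hx
      exact absurd hx WithTop.top_ne_zero
    have h1 : w x + w x⁻¹ = 0 := by rw [← w.map_mul, mul_inv_cancel₀ hx0, w.map_one]
    rw [hx, zero_add] at h1
    have h2 := hB1 x⁻¹ h1.ge
    rw [ValuationSubring.mem_nonunits_iff_or] at hcon
    rcases hcon with h3 | h3
    · exact hx0 ((algebraMap V κ).injective (by rw [h3, map_zero]))
    · apply h3
      rw [← map_inv₀]
      exact h2
  have hmulm : ∀ a b : κ, a ∈ B → b ∈ B.nonunits → b * a ∈ B.nonunits := by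
    intro a b ha hb
    rw [ValuationSubring.mem_nonunits_iff] at hb ⊢
    rw [map_mul]
    exact mul_lt_one_of_lt_of_le hb ((B.valuation_le_one_iff a).2 ha)
  -- normalise `y`
  obtain ⟨jm, hjm⟩ : ∃ jm, ∀ j, w (y jm) ≤ w (y j) := Finite.exists_min (fun j => w (y j))
  have hyjm : y jm ≠ 0 := by
    intro h0
    apply hy
    funext j
    have h1 := hjm j
    rw [h0, w.map_zero, top_le_iff] at h1
    exact (w.top_iff).1 h1
  have hwjm : w (y jm) ≠ ⊤ := fun h => hyjm (w.top_iff.1 h)
  let yy : Fin (n + 1) → V := fun j => y j / y jm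
  have hyy : ∀ j, yy j * y jm = y j := fun j => div_mul_cancel₀ _ hyjm
  have hyyj : yy jm = 1 := div_self hyjm
  have hwyy : ∀ j, 0 ≤ w (yy j) := by
    intro j
    apply top_add_cancel hwjm
    rw [← w.map_mul, hyy, zero_add]
    exact hjm j
  have hφ : algebraMap V κ (y jm) ≠ 0 := by
    rw [Ne, map_eq_zero]
    exact hyjm
  have hE1' : ∑ j, algebraMap V κ (yy j) * ι (lam * f j) = 0 := by
    have h1 : ∑ j, algebraMap V κ (yy j) * ι (lam * f j) =
        ι lam * (algebraMap V κ (y jm))⁻¹ * ∑ j, algebraMap V κ (y j) * ι (f j) := by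
      rw [Finset.mul_sum]
      refine Finset.sum_congr rfl fun j _ => ?_
      rw [← hyy j, map_mul, map_mul]
      field_simp
    rw [h1, hE1, mul_zero]
  have hE2' : ∑ j, algebraMap V κ (yy j) * ι (d (lam * f j)) = 0 := by
    have h1 : ∑ j, algebraMap V κ (yy j) * ι (d (lam * f j)) =
        ι lam * ι μ * (algebraMap V κ (y jm))⁻¹ * ∑ j, algebraMap V κ (y j) * ι (del (f j)) +
        ι (d lam) * (algebraMap V κ (y jm))⁻¹ * ∑ j, algebraMap V κ (y j) * ι (f j) := by
      rw [Finset.mul_sum, Finset.mul_sum, ← Finset.sum_add_distrib]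
      refine Finset.sum_congr rfl fun j _ => ?_
      rw [← hyy j, d.leibniz, smul_eq_mul, smul_eq_mul, hdμ (f j), map_add, map_mul, map_mul,
        map_mul, map_mul]
      field_simp
    rw [h1, hE1, hE2, mul_zero, mul_zero, add_zero]
  -- the coefficients
  let a : ℕ → V := fun e => ∑ j, algebraMap k V (tco Q s (lam * f j) e) * yy j
  have hwa : ∀ e, 0 ≤ w (a e) := by
    intro e
    refine w.map_le_sum fun j _ => ?_
    rw [w.map_mul]
    exact add_nonneg (hwk _) (hwyy j)
  have ha0 : w (a 0) ≤ 1 := by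
    have h1 : a 0 * y jm = lin p y := by
      change (∑ j, algebraMap k V (tco Q s (lam * f j) 0) * yy j) * y jm =
        ∑ j, algebraMap k V (p j) * y j
      rw [Finset.sum_mul]
      refine Finset.sum_congr rfl fun j _ => ?_
      rw [mul_assoc, hyy, hG0]
    apply top_add_cancel hwjm
    rw [← w.map_mul, h1]
    exact hlin jm
  have ha00 : a 0 ≠ 0 := by
    intro h0
    rw [h0, w.map_zero, top_le_iff] at ha0
    exact absurd ha0 (by decide)
  let S : κ := ι s
  have hS0 : S ≠ 0 := by
    have hinj : Function.Injective ι := ι.toRingHom.injective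
    intro h0
    apply hs0
    apply hinj
    rw [map_zero]
    exact h0
  have hSm : S ∈ B.nonunits := hB4 s ((Q.ge_iff hs0).2 hs.ge)
  have hSB : S ∈ B := ValuationSubring.nonunits_subset hSm
  let ρ : ℕ → κ := fun M => ∑ j, algebraMap V κ (yy j) * ι (rem Q s (lam * f j) M)
  have hρ : ∀ M, ρ M ∈ B := fun M => sum_mem fun j _ =>
    B.mul_mem _ _ (hB1 _ (hwyy j)) (hB3 _ (rem_ge hs0 hs (hgQ j) M))
  let σ : ℕ → κ := fun M => ∑ j, algebraMap V κ (yy j) * ι (d (rem Q s (lam * f j) M))
  have hσ : ∀ M, σ M ∈ B := fun M => sum_mem fun j _ =>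
    B.mul_mem _ _ (hB1 _ (hwyy j)) (hB3 _ (hdQ _ (rem_ge hs0 hs (hgQ j) M)))
  have hφa : ∀ e, algebraMap V κ (a e) =
      ∑ j, algebraMap V κ (yy j) * algebraMap k κ (tco Q s (lam * f j) e) := by
    intro e
    change algebraMap V κ (∑ j, algebraMap k V (tco Q s (lam * f j) e) * yy j) = _
    rw [map_sum]
    refine Finset.sum_congr rfl fun j _ => ?_
    rw [map_mul, ← IsScalarTower.algebraMap_apply, mul_comm]
  have hT1 : ∀ M, ∑ e ∈ Finset.range M, algebraMap V κ (a e) * S ^ e + S ^ M * ρ M = 0 := by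
    intro M
    rw [← hE1']
    have h1 : ∀ j, algebraMap V κ (yy j) * ι (lam * f j) =
        ∑ e ∈ Finset.range M, algebraMap V κ (yy j) *
          algebraMap k κ (tco Q s (lam * f j) e) * S ^ e +
        S ^ M * (algebraMap V κ (yy j) * ι (rem Q s (lam * f j) M)) := by
      intro j
      conv_lhs => rw [taylor (Q := Q) (s := s) (r := lam * f j) hs0 M]
      rw [map_add, map_sum, mul_add, Finset.mul_sum, map_mul, map_pow]
      congr 1
      · refine Finset.sum_congr rfl fun e _ => ?_
        rw [map_mul, map_pow, ι.commutes, mul_assoc]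
      · ring
    rw [Finset.sum_congr rfl fun j _ => h1 j, Finset.sum_add_distrib, Finset.sum_comm,
      ← Finset.mul_sum]
    congr 1
    refine Finset.sum_congr rfl fun e _ => ?_
    rw [hφa, Finset.sum_mul]
  have hT2 : ∀ M, ∑ e ∈ Finset.range M, algebraMap V κ (a e) * ((e : κ) * S ^ (e - 1)) +
      ((M : κ) * S ^ (M - 1) * ρ M + S ^ M * σ M) = 0 := by
    intro M
    rw [← hE2']
    have h1 : ∀ j, algebraMap V κ (yy j) * ι (d (lam * f j)) =
        ∑ e ∈ Finset.range M, algebraMap V κ (yy j) *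
          algebraMap k κ (tco Q s (lam * f j) e) * ((e : κ) * S ^ (e - 1)) +
        ((M : κ) * S ^ (M - 1) * (algebraMap V κ (yy j) * ι (rem Q s (lam * f j) M)) +
          S ^ M * (algebraMap V κ (yy j) * ι (d (rem Q s (lam * f j) M)))) := by
      intro j
      rw [deriv_taylor (Q := Q) (s := s) (r := lam * f j) hs0 d hds M]
      rw [map_add, map_sum, mul_add, Finset.mul_sum, map_add, map_mul, map_mul, map_mul,
        map_pow, map_pow, map_natCast]
      congr 1
      · refine Finset.sum_congr rfl fun e _ => ?_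
        rw [map_mul, map_mul, map_pow, ι.commutes, map_natCast, mul_assoc]
      · ring
    rw [Finset.sum_congr rfl fun j _ => h1 j, Finset.sum_add_distrib, Finset.sum_comm,
      Finset.sum_add_distrib, ← Finset.mul_sum, ← Finset.mul_sum]
    congr 1
    refine Finset.sum_congr rfl fun e _ => ?_
    rw [hφa, Finset.sum_mul]
  -- `w (a 0) = 1`
  have ha1 : w (a 0) = 1 := by
    refine le_antisymm ha0 (top_one_le (lt_of_le_of_ne (hwa 0) fun h0 => ?_))
    apply hunit _ h0.symm
    have h1 := hT1 1
    rw [Finset.sum_range_one, pow_zero, mul_one, pow_one] at h1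
    rw [eq_neg_of_add_eq_zero_left h1]
    exact B.nonunits.neg_mem (hmulm _ _ (hρ 1) hSm)
  -- some coefficient is a unit
  have hex : ∃ e, ¬ 1 ≤ w (a e) := by
    by_contra hcon
    push Not at hcon
    let N : Submodule k (Fin (n + 1) → k) :=
      { carrier := {v | 1 ≤ w (∑ j, algebraMap k V (v j) * yy j)}
        add_mem' := fun {v v'} hv hv' => by
          change 1 ≤ w (∑ j, algebraMap k V ((v + v') j) * yy j)
          have h1 : ∑ j, algebraMap k V ((v + v') j) * yy j =
              ∑ j, algebraMap k V (v j) * yy j + ∑ j, algebraMap k V (v' j) * yy j := by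
            rw [← Finset.sum_add_distrib]
            refine Finset.sum_congr rfl fun j _ => ?_
            rw [Pi.add_apply, map_add, add_mul]
          rw [h1]
          exact w.map_le_add hv hv'
        zero_mem' := by
          change 1 ≤ w (∑ j, algebraMap k V ((0 : Fin (n + 1) → k) j) * yy j)
          simp
        smul_mem' := fun c v hv => by
          change 1 ≤ w (∑ j, algebraMap k V ((c • v) j) * yy j)
          have h1 : ∑ j, algebraMap k V ((c • v) j) * yy j =
              algebraMap k V c * ∑ j, algebraMap k V (v j) * yy j := by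
            rw [Finset.mul_sum]
            refine Finset.sum_congr rfl fun j _ => ?_
            rw [Pi.smul_apply, smul_eq_mul, map_mul, mul_assoc]
          rw [h1, w.map_mul]
          have h2 : 1 ≤ w (∑ j, algebraMap k V (v j) * yy j) := hv
          calc (1 : WithTop ℤ) = 0 + 1 := (zero_add 1).symm
            _ ≤ _ := add_le_add (hwk c) h2 }
    let G : ℕ → Fin (n + 1) → k := fun e j => tco Q s (lam * f j) e
    have hG : Submodule.span k (Set.range G) = ⊤ := by
      by_contra hne
      obtain ⟨c, hc0, hc⟩ := Submodule.exists_le_ker_of_lt_top _ (lt_top_iff_ne_top.2 hne)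
      apply hc0
      have h1 : ∀ v : Fin (n + 1) → k, c v = ∑ j, v j * c (Pi.single j 1) := by
        intro v
        conv_lhs => rw [← Finset.univ_sum_single v]
        rw [map_sum]
        refine Finset.sum_congr rfl fun j _ => ?_
        have h2 : (Pi.single j (v j) : Fin (n + 1) → k) = v j • Pi.single j 1 := by
          rw [← Pi.single_smul, smul_eq_mul, mul_one]
        rw [h2, map_smul, smul_eq_mul]
      have h2 : ∀ e, ∑ j, tco Q s (lam * f j) e * c (Pi.single j 1) = 0 := by
        intro e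
        rw [← h1 (G e)]
        exact hc (Submodule.subset_span ⟨e, rfl⟩)
      have h3 : ∑ j, c (Pi.single j 1) • (lam * f j) = 0 := by
        apply eq_zero_of_ge_all (Q := Q)
        intro M
        have h4 : ∑ j, c (Pi.single j 1) • (lam * f j) =
            s ^ M * ∑ j, c (Pi.single j 1) • rem Q s (lam * f j) M := by
          have h5 : ∀ j, c (Pi.single j 1) • (lam * f j) =
              ∑ e ∈ Finset.range M, algebraMap k R (tco Q s (lam * f j) e *
                c (Pi.single j 1)) * s ^ e +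
              s ^ M * (c (Pi.single j 1) • rem Q s (lam * f j) M) := by
            intro j
            conv_lhs => rw [taylor (Q := Q) (s := s) (r := lam * f j) hs0 M]
            rw [smul_add, Finset.smul_sum]
            congr 1
            · refine Finset.sum_congr rfl fun e _ => ?_
              rw [Algebra.smul_def, map_mul]
              ring
            · rw [mul_smul_comm]
          rw [Finset.sum_congr rfl fun j _ => h5 j, Finset.sum_add_distrib, Finset.sum_comm,
            ← Finset.mul_sum]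
          rw [add_eq_right]
          refine Finset.sum_eq_zero fun e _ => ?_
          rw [← Finset.sum_mul, ← map_sum, h2 e, map_zero, zero_mul]
        rw [h4]
        have h6 : Q.Ge ((M : ℤ) * 1) (s ^ M) := ((Q.ge_iff hs0).2 hs.ge).pow M
        have h7 : Q.Ge 0 (∑ j, c (Pi.single j 1) • rem Q s (lam * f j) M) :=
          Place.Ge.sum fun j _ => (rem_ge hs0 hs (hgQ j) M).smul _
        exact h6.mul' h7 (by omega)
      have h4 : ∑ j, c (Pi.single j 1) • f j = 0 := by
        have h5 : lam * ∑ j, c (Pi.single j 1) • f j = 0 := by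
          rw [← h3, Finset.mul_sum]
          refine Finset.sum_congr rfl fun j _ => ?_
          rw [mul_smul_comm]
        exact (mul_eq_zero.1 h5).resolve_left hlam
      have h5 := Fintype.linearIndependent_iff.1 hf _ h4
      ext j
      simp [h5 j]
    have h1 : Submodule.span k (Set.range G) ≤ N := by
      rw [Submodule.span_le]
      rintro _ ⟨e, rfl⟩
      exact hcon e
    have h2 : (Pi.single jm 1 : Fin (n + 1) → k) ∈ N := h1 (hG ▸ Submodule.mem_top)
    have h3 : 1 ≤ w (∑ j, algebraMap k V ((Pi.single jm 1 : Fin (n + 1) → k) j) * yy j) := h2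
    have h4 : ∑ j, algebraMap k V ((Pi.single jm 1 : Fin (n + 1) → k) j) * yy j = 1 := by
      rw [Finset.sum_eq_single jm]
      · rw [Pi.single_eq_same, map_one, one_mul, hyyj]
      · intro j _ hj
        rw [Pi.single_eq_of_ne hj, map_zero, zero_mul]
      · intro h
        exact absurd (Finset.mem_univ _) h
    rw [h4, w.map_one] at h3
    exact absurd h3 (by decide)
  -- the first one
  classical
  obtain ⟨t, ht⟩ : ∃ t, Nat.find hex = t + 1 := by
    rcases Nat.eq_zero_or_pos (Nat.find hex) with h0 | h0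
    · have h1 := Nat.find_spec hex
      rw [h0, ha1] at h1
      exact absurd le_rfl h1
    · exact ⟨Nat.find hex - 1, by omega⟩
  have htu : w (a (t + 1)) = 0 := by
    have h1 := Nat.find_spec hex
    rw [ht] at h1
    exact top_lt_one (hwa _) h1
  have hlt : ∀ e < t + 1, 1 ≤ w (a e) := by
    intro e he
    have h1 := Nat.find_min hex (m := e) (by rw [ht]; exact he)
    exact not_not.1 h1
  let b : ℕ → V := fun e => a (e + 1) / a 0
  have hb : ∀ e, b e * a 0 = a (e + 1) := fun e => div_mul_cancel₀ _ ha00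
  have hwb : ∀ e < t, 0 ≤ w (b e) := by
    intro e he
    apply top_add_cancel (z := w (a 0)) (by rw [ha1]; decide)
    rw [← w.map_mul, hb, zero_add, ha1]
    exact hlt (e + 1) (by omega)
  have hnat : ∀ m : ℕ, (m : κ) ∈ B := fun m => by
    have h1 := hB1 (algebraMap k V (m : k)) (hwk _)
    rwa [map_natCast, map_natCast] at h1
  let S1 : κ := ∑ e ∈ Finset.range t, algebraMap V κ (b e) * S ^ e
  have hS1 : S1 ∈ B := sum_mem fun e he =>
    B.mul_mem _ _ (hB1 _ (hwb e (Finset.mem_range.1 he))) (pow_mem hSB e)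
  let S2 : κ := ∑ e ∈ Finset.range t, algebraMap V κ (b e) * (((e + 1 : ℕ) : κ) * S ^ e)
  have hS2 : S2 ∈ B := sum_mem fun e he =>
    B.mul_mem _ _ (hB1 _ (hwb e (Finset.mem_range.1 he)))
      (B.mul_mem _ _ (hnat _) (pow_mem hSB e))
  have hF1 : algebraMap V κ (a 0) * (1 + S * S1) +
      S ^ (t + 1) * (algebraMap V κ (a (t + 1)) + S * ρ (t + 2)) = 0 := by
    have h1 := hT1 (t + 2)
    rw [Finset.sum_range_succ, Finset.sum_range_succ', pow_zero, mul_one] at h1
    have h2 : ∑ e ∈ Finset.range t, algebraMap V κ (a (e + 1)) * S ^ (e + 1) =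
        algebraMap V κ (a 0) * (S * S1) := by
      rw [Finset.mul_sum, Finset.mul_sum]
      refine Finset.sum_congr rfl fun e _ => ?_
      rw [← hb e, map_mul]
      ring
    rw [h2] at h1
    linear_combination h1
  have hF2 : algebraMap V κ (a 0) * S2 + ((t + 1 : ℕ) : κ) * algebraMap V κ (a (t + 1)) * S ^ t +
      S ^ (t + 1) * (((t + 2 : ℕ) : κ) * ρ (t + 2) + S * σ (t + 2)) = 0 := by
    have h1 := hT2 (t + 2)
    rw [Finset.sum_range_succ, Finset.sum_range_succ'] at h1
    have h2 : ∑ e ∈ Finset.range t, algebraMap V κ (a (e + 1)) *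
        (((e + 1 : ℕ) : κ) * S ^ (e + 1 - 1)) = algebraMap V κ (a 0) * S2 := by
      rw [Finset.mul_sum]
      refine Finset.sum_congr rfl fun e _ => ?_
      rw [← hb e, map_mul, Nat.add_sub_cancel]
      ring
    rw [h2, Nat.cast_zero, zero_mul, mul_zero, add_zero, Nat.add_sub_cancel] at h1
    have h3 : t + 2 - 1 = t + 1 := rfl
    rw [h3] at h1
    linear_combination h1
  -- combine
  set A : κ := algebraMap V κ (a (t + 1)) with hA
  set ρ' : κ := ρ (t + 2) with hρ'
  set σ' : κ := ((t + 2 : ℕ) : κ) * ρ (t + 2) + S * σ (t + 2) with hσ'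
  have hAB : A ∈ B := hB1 _ (hwa _)
  have hρB : ρ' ∈ B := hρ _
  have hσB : σ' ∈ B := B.add_mem _ _ (B.mul_mem _ _ (hnat _) (hρ _)) (B.mul_mem _ _ hSB (hσ _))
  have hcomb : S ^ t * (((t + 1 : ℕ) : κ) * A + S * (((t + 1 : ℕ) : κ) * A * S1 + σ' +
      S * S1 * σ' - S2 * (A + S * ρ'))) = 0 := by
    linear_combination (1 + S * S1) * hF2 - S2 * hF1
  have hzero := (mul_eq_zero.1 hcomb).resolve_left (pow_ne_zero t hS0)
  have hmem : ((t + 1 : ℕ) : κ) * A ∈ B.nonunits := by
    rw [eq_neg_of_add_eq_zero_left hzero]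
    refine B.nonunits.neg_mem (hmulm _ _ ?_ hSm)
    refine B.sub_mem (B.add_mem _ _ (B.add_mem _ _ (B.mul_mem _ _ (B.mul_mem _ _ (hnat _) hAB) hS1)
      hσB) (B.mul_mem _ _ (B.mul_mem _ _ hSB hS1) hσB)) ?_
    exact B.mul_mem _ _ hS2 (B.add_mem _ _ hAB (B.mul_mem _ _ hSB hρB))
  refine hunit (algebraMap k V ((t + 1 : ℕ) : k) * a (t + 1)) ?_ ?_
  · rw [w.map_mul, hw0 _ (Nat.cast_ne_zero.2 (Nat.succ_ne_zero t)), htu, add_zero]
  · rw [map_mul, map_natCast, map_natCast]
    exact hmem

end H13
end PGL
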