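import Pool.Agent.Helper11_PGL.StmtG
import Pool.Agent.Helper1_PGH.Below
import Pool.Agent.Helper1_PGH.Ded

/-!
# Module VALB of the squad PGL (helper13)
-/

open PGH Polynomial
open scoped IntermediateField TensorProduct

universe u v w

namespace PGL
namespace H13

open Polynomial Algebra in
set_option backward.isDefEq.respectTransparency.types false in
/-- a valuation ring dominating a local ring `O` and not containing a given element which is not
integral over `O` -/
theorem exists_dominating {O K : Type*} [CommRing O] [IsLocalRing O] [Field K] [Algebra O K]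
    {x : K} (hx : ¬ IsIntegral O x) :
    ∃ B : ValuationSubring K, (∀ a : O, algebraMap O K a ∈ B) ∧
      (∀ a ∈ IsLocalRing.maximalIdeal O, algebraMap O K a ∈ B.nonunits) ∧ x ∉ B := by
  obtain rfl | hx0 := eq_or_ne x 0
  · exact (hx isIntegral_zero).elim
  let _ := invertibleOfNonzero hx0
  let B := Algebra.adjoin O {x⁻¹}
  let xinv : B.toSubring := ⟨x⁻¹, Algebra.subset_adjoin rfl⟩
  have : (IsLocalRing.maximalIdeal O).map (algebraMap _ B) + .span {xinv} ≠ ⊤ := fun eq ↦ hx <| by
    have ⟨p, hp, hpx⟩ := exists_aeval_invOf_eq_zero_of_idealMap_adjoin_sup_span_eq_top _ _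
      (IsLocalRing.maximalIdeal.isMaximal O).ne_top eq
    have H : IsUnit p.leadingCoeff := of_not_not fun h ↦ by
      have h1 : p.leadingCoeff ∈ IsLocalRing.maximalIdeal O := h
      have h2 := Ideal.sub_mem _ h1 hp
      simp at h2
    refine ⟨.C H.unit⁻¹.1 * p, ?_, by simpa using .inr hpx⟩
    rw [Polynomial.Monic, Polynomial.leadingCoeff_C_mul_of_isUnit (Units.isUnit _)]
    exact H.val_inv_mul
  have ⟨V, hV⟩ := Ideal.image_subset_nonunits_valuationSubring (A := B.toSubring) _ this
  refine ⟨V, fun a => hV.1 (B.algebraMap_mem a), fun a ha => ?_, (V.inv_mem_nonunits_iff.mp <|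
      hV.2 ⟨_, le_add_self (α := Ideal B) (Ideal.subset_span rfl), rfl⟩).resolve_left hx0⟩
  exact hV.2 ⟨_, le_self_add (α := Ideal B) (Ideal.mem_map_of_mem _ ha), rfl⟩

/-- the valuation ring of an additive valuation -/
def ovr {V : Type*} [Field V] (w : AddValuation V (WithTop ℤ)) : ValuationSubring V where
  carrier := {x | 0 ≤ w x}
  mul_mem' := fun {a b} ha hb => by
    change 0 ≤ w (a * b)
    rw [w.map_mul]
    exact add_nonneg ha hb
  one_mem' := by
    change 0 ≤ w 1
    rw [w.map_one]
  add_mem' := fun {a b} ha hb => w.map_le_add ha hb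
  zero_mem' := by
    change 0 ≤ w 0
    rw [w.map_zero]
    exact le_top
  neg_mem' := fun {a} ha => by
    change 0 ≤ w (-a)
    rw [w.map_neg]
    exact ha
  mem_or_inv_mem' := fun x => by
    by_cases hx : x = 0
    · left
      change 0 ≤ w x
      rw [hx, w.map_zero]
      exact le_top
    · by_contra hcon
      rw [not_or] at hcon
      have h1 : w x < 0 := not_le.1 hcon.1
      have h2 : w x⁻¹ < 0 := not_le.1 hcon.2
      have h3 : w x + w x⁻¹ = 0 := by rw [← w.map_mul, mul_inv_cancel₀ hx, w.map_one]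
      obtain ⟨a, ha⟩ := WithTop.ne_top_iff_exists.1 (h1.trans_le le_top).ne
      obtain ⟨b, hb⟩ := WithTop.ne_top_iff_exists.1 (h2.trans_le le_top).ne
      rw [← ha] at h1 h3
      rw [← hb] at h2 h3
      norm_cast at h1 h2 h3
      omega

/-- **VALB** -/
theorem valB : ValBStmt.{u} := by
  intro k V R κ _ _ _ _ _ _ _ _ _ _ _ _ W ι Q hW0 hW1 halg
  obtain ⟨h, hh, hpole⟩ := exists_pole_only Q
  have hint : IsIntegral V (ι h) := (halg h).isIntegral
  have hinj : Function.Injective ι := ι.toRingHom.injective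
  -- a coefficient of the minimal polynomial with a pole
  have hcoef : ∃ i : ℕ, ∃ w ∈ W, w ((minpoly V (ι h)).coeff i) < 0 := by
    by_contra hcon
    push Not at hcon
    have h1 : ∀ i : ℕ, ∃ c : k, algebraMap k V c = (minpoly V (ι h)).coeff i := fun i =>
      hW1 _ (fun w hw => hcon i w hw)
    have h2 : minpoly V (ι h) ∈ Polynomial.lifts (algebraMap k V) := by
      rw [Polynomial.lifts_iff_coeff_lifts]
      intro n
      obtain ⟨c, hc⟩ := h1 n
      exact ⟨c, hc⟩
    obtain ⟨q, hq, -, hqm⟩ := Polynomial.lifts_and_degree_eq_and_monic h2 (minpoly.monic hint)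
    apply hh
    refine ⟨q, hqm.ne_zero, ?_⟩
    apply hinj
    rw [map_zero, ← Polynomial.aeval_algHom_apply, ← Polynomial.aeval_map_algebraMap V, hq]
    exact minpoly.aeval V (ι h)
  obtain ⟨i, w, hw, hwi⟩ := hcoef
  refine ⟨w, hw, ?_⟩
  let O : ValuationSubring V := ovr w
  have hO : ∀ x : V, x ∈ O ↔ 0 ≤ w x := fun x => Iff.rfl
  have hni : ¬ IsIntegral O (ι h) := by
    intro hcon
    have h3 : minpoly V (ι h) = _ := minpoly.isIntegrallyClosed_eq_field_fractions V κ hcon
    rw [h3, Polynomial.coeff_map] at hwi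
    have h4 : 0 ≤ w (algebraMap O V ((minpoly O (ι h)).coeff i)) :=
      (hO _).1 ((minpoly O (ι h)).coeff i).2
    exact absurd hwi (not_lt.2 h4)
  obtain ⟨B, hB1, hB2, hB3⟩ := exists_dominating hni
  have hBV : ∀ x : V, 0 ≤ w x → algebraMap V κ x ∈ B := fun x hx =>
    hB1 ⟨x, (hO x).2 hx⟩
  have hBk : ∀ c : k, algebraMap k κ c ∈ B := by
    intro c
    rw [IsScalarTower.algebraMap_apply k V κ]
    apply hBV
    by_cases hc : c = 0
    · rw [hc, map_zero, w.map_zero]
      exact le_top
    · rw [hW0 w hw c hc]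
  have hBtop : B.comap ι.toRingHom ≠ ⊤ := by
    intro htop
    have h5 : h ∈ B.comap ι.toRingHom := by rw [htop]; trivial
    exact hB3 h5
  obtain ⟨P, hP⟩ := Place.exists_of_valuationSubring (B.comap ι.toRingHom)
    (fun c => by
      change ι (algebraMap k R c) ∈ B
      rw [ι.commutes]
      exact hBk c) hBtop
  have hPQ : P = Q := by
    by_contra hne
    have h6 := (hP h).1 (ge_zero_of_ord_nonneg P (hpole P hne))
    exact hB3 h6
  rw [hPQ] at hP
  refine ⟨B, hBV, ?_, fun r hr => (hP r).1 hr, ?_⟩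
  · intro x hx
    have hx0 : 0 ≤ w x := hx.le
    refine hB2 ⟨x, (hO x).2 hx0⟩ ?_
    rw [IsLocalRing.mem_maximalIdeal, mem_nonunits_iff]
    intro hu
    obtain ⟨⟨y, hy⟩, hxy⟩ := isUnit_iff_exists_inv.1 hu
    have h7 : x * y = 1 := congrArg Subtype.val hxy
    have h8 : w x + w y = 0 := by rw [← w.map_mul, h7, w.map_one]
    have h9 : 0 ≤ w y := (hO y).1 hy
    have h10 : 0 < w x + w y := lt_of_lt_of_le hx (le_add_of_nonneg_right h9)
    exact absurd h8 h10.ne'
  · intro r hr
    rw [ValuationSubring.mem_nonunits_iff_or]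
    by_cases hr0 : r = 0
    · left; rw [hr0, map_zero]
    · right
      intro hcon
      rw [← map_inv₀] at hcon
      have h11 : Q.Ge 0 r⁻¹ := (hP r⁻¹).2 hcon
      rw [Q.ge_iff (inv_ne_zero hr0), Q.ord_inv] at h11
      rw [Q.ge_iff hr0] at hr
      omega

end H13
end PGL
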